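import Pool.Agent.Y933.KH.Riesz

/-!
# Project FJ: deviations of the number of visits of a lacunary sequence, with explicit degrees
-/

set_option autoImplicit false

namespace Pool.Agent.N639.FJ

open Finset Real MeasureTheory
open Pool.Agent.Y933.KD Pool.Agent.Y933.KH

/-- the majorant, with its degree -/
theorem majorant (M : ℕ) (V : Finset ℕ) (hV : ∀ c ∈ V, c < 6 ^ M) (K : ℕ) (hK0 : 0 < K) :
    ∃ G : ℝ → ℝ, TQ (K ^ 3) G ∧ (∀ x, gi M V x ≤ G x) ∧
      ∀ q : ℤ, q ≠ 0 → ∫ x, G (q * x) ∂Leb ≤ (V.card : ℝ) / 6 ^ M + V.card * (12 / K) := by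
  have h6 : (0 : ℝ) < (6 : ℝ) ^ M := by positivity
  have hKR : (0 : ℝ) < K := by exact_mod_cast hK0
  set R : ℕ := K ^ 3 with hR
  have hR0 : 0 < R := by positivity
  have hRR : (R : ℝ) = (K : ℝ) ^ 3 := by rw [hR]; push_cast; ring
  have hKR' : K ≤ R := by
    rw [hR]
    calc K = K ^ 1 := (pow_one K).symm
      _ ≤ K ^ 3 := Nat.pow_le_pow_right hK0 (by norm_num)
  refine ⟨fun x => ∑ c ∈ V, (g R ((c : ℝ) / 6 ^ M) (((c : ℝ) + 1) / 6 ^ M) x +
    w K R ((c : ℝ) / 6 ^ M) (((c : ℝ) + 1) / 6 ^ M) x), ?_, ?_, ?_⟩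
  · refine TQ.sum V _ fun c _ => ?_
    refine TQ.add (TQ.of_TP (TP_g R _ _)) ?_
    unfold w
    refine TQ.add (TQ.const _ _) ?_
    refine TQ.const_mul (π ^ 2 / (4 * K)) ?_
    exact TQ.add (TQ.of_TP (TP_F hKR' _)) (TQ.of_TP (TP_F hKR' _))
  · intro x
    unfold gi
    refine sum_le_sum fun c hc => ?_
    have h1 := appr hK0 hR0 (u := (c : ℝ) / 6 ^ M) (v := ((c : ℝ) + 1) / 6 ^ M) (by positivity)
      (by
        rw [div_le_one h6]
        exact_mod_cast hV c hc) x
    have h2 := abs_le.1 h1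
    linarith [h2.2]
  · intro q hq
    have hint : ∀ (K : ℕ) (u : ℝ), Integrable (fun x => F K (q * x - u)) Leb := fun K u =>
      integrable_F K Leb q u
    have hg : ∀ c ∈ V, ∫ x, g R ((c : ℝ) / 6 ^ M) (((c : ℝ) + 1) / 6 ^ M) (q * x) ∂Leb ≤
        1 / 6 ^ M + 1 / R := by
      intro c _
      unfold g
      rw [integral_finsetSum _ fun j _ => (hint R _).const_mul _]
      simp only [integral_const_mul, int_F_one hR0 hq, mul_one, sum_const, nsmul_eq_mul]
      have h1 := count_ends hR0 (u := (c : ℝ) / 6 ^ M) (v := ((c : ℝ) + 1) / 6 ^ M) (by positivity)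
        (by rw [div_le_div_iff_of_pos_right h6]; linarith)
      have hRp : (0 : ℝ) < R := by exact_mod_cast hR0
      calc _ ≤ ((R : ℝ) * (((c : ℝ) + 1) / 6 ^ M - c / 6 ^ M) + 1) * (1 / R) := by gcongr
        _ = 1 / 6 ^ M + 1 / R := by field_simp; ring
    have hw : ∀ c ∈ V, ∫ x, w K R ((c : ℝ) / 6 ^ M) (((c : ℝ) + 1) / 6 ^ M) (q * x) ∂Leb =
        (K : ℝ) ^ 2 / R + π ^ 2 / (2 * K) := by
      intro c _
      unfold w
      have h1 : Integrable (fun x : ℝ => π ^ 2 / (4 * K) * (F K (q * x - (c : ℝ) / 6 ^ M) +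
          F K (q * x - ((c : ℝ) + 1) / 6 ^ M))) Leb := ((hint K _).add (hint K _)).const_mul _
      rw [integral_add (integrable_const _) h1,
        integral_const_mul, integral_add (hint K _) (hint K _), int_F_one hK0 hq, int_F_one hK0 hq]
      simp
      field_simp
      ring
    have hgi : ∀ c ∈ V, Integrable (fun x => g R ((c : ℝ) / 6 ^ M) (((c : ℝ) + 1) / 6 ^ M) (q * x))
        Leb := by
      intro c _
      unfold g
      exact integrable_finsetSum _ fun j _ => (hint R _).const_mul _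
    have hwi : ∀ c ∈ V, Integrable (fun x => w K R ((c : ℝ) / 6 ^ M) (((c : ℝ) + 1) / 6 ^ M) (q * x))
        Leb := by
      intro c _
      unfold w
      exact (integrable_const _).add (((hint K _).add (hint K _)).const_mul _)
    have hgw : ∀ c ∈ V, Integrable (fun x => g R ((c : ℝ) / 6 ^ M) (((c : ℝ) + 1) / 6 ^ M) (q * x) +
        w K R ((c : ℝ) / 6 ^ M) (((c : ℝ) + 1) / 6 ^ M) (q * x)) Leb := fun c hc =>
      (hgi c hc).add (hwi c hc)
    show ∫ x, ∑ c ∈ V, (g R ((c : ℝ) / 6 ^ M) (((c : ℝ) + 1) / 6 ^ M) (q * x) +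
        w K R ((c : ℝ) / 6 ^ M) (((c : ℝ) + 1) / 6 ^ M) (q * x)) ∂Leb ≤ _
    rw [integral_finsetSum _ hgw]
    have h1 : ∀ c ∈ V, ∫ x, (g R ((c : ℝ) / 6 ^ M) (((c : ℝ) + 1) / 6 ^ M) (q * x) +
        w K R ((c : ℝ) / 6 ^ M) (((c : ℝ) + 1) / 6 ^ M) (q * x)) ∂Leb ≤ 1 / 6 ^ M + 12 / K := by
      intro c hc
      rw [integral_add (hgi c hc) (hwi c hc), hw c hc]
      have h2 := hg c hc
      have h3 : (1 : ℝ) / R ≤ 1 / K := by
        apply one_div_le_one_div_of_le hKR
        exact_mod_cast hKR'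
      have h4 : (K : ℝ) ^ 2 / R = 1 / K := by rw [hRR]; field_simp
      have h5 : π ^ 2 / (2 * K) ≤ 10 / K := by
        rw [div_le_div_iff₀ (by positivity) hKR]
        have h6 := Real.pi_lt_d2
        have h7 := Real.pi_pos
        have h8 : π ^ 2 ≤ 10 := by nlinarith
        nlinarith
      have h9 : (12 : ℝ) / K = 1 / K + 1 / K + 10 / K := by ring
      rw [h4, h9]
      linarith
    refine (sum_le_sum h1).trans ?_
    rw [sum_const, nsmul_eq_mul, mul_add, mul_one_div]

lemma TQ_cont {H : ℕ} {G : ℝ → ℝ} (hG : TQ H G) : Continuous G := by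
  obtain ⟨c, hc⟩ := hG
  have h3 : Continuous (fun x => (G x : ℂ)) := by
    have : (fun x => (G x : ℂ)) = fun x => ∑ h ∈ Finset.Icc (-(H : ℤ)) H, c h * e (h * x) :=
      funext hc
    rw [this]
    refine continuous_finsetSum _ fun i _ => continuous_const.mul (continuous_e.comp ?_)
    fun_prop
  have h4 : G = fun x => (G x : ℂ).re := by funext x; simp
  rw [h4]
  exact Complex.continuous_re.comp h3

lemma TQ_bound {H : ℕ} {G : ℝ → ℝ} (hG : TQ H G) : ∃ Cb : ℝ, ∀ x, ‖G x‖ ≤ Cb := by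
  obtain ⟨c, hc⟩ := hG
  refine ⟨∑ h ∈ Finset.Icc (-(H : ℤ)) H, ‖c h‖, fun x => ?_⟩
  have h3 : ‖(G x : ℂ)‖ ≤ ∑ h ∈ Finset.Icc (-(H : ℤ)) H, ‖c h‖ := by
    rw [hc x]
    refine (norm_sum_le _ _).trans (sum_le_sum fun h _ => ?_)
    rw [norm_mul, norm_e, mul_one]
  rwa [Complex.norm_real] at h3

/-- Markov's inequality for the product -/
theorem markov {m H : ℕ} (hH : 1 ≤ H) {G : ℝ → ℝ} (hG : TQ H G) (al be : ℝ)
    (hpos : ∀ x, 0 ≤ al + be * G x) (B : ℝ)
    (hB : ∀ q : ℤ, q ≠ 0 → al + be * ∫ x, G (q * x) ∂Leb ≤ B) (q : Fin m → ℤ) (hq : NoRel H q)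
    (a : ℝ) (ha : 0 < a) :
    Leb.real {x | a ≤ ∏ i, (al + be * G (q i * x))} ≤ B ^ m / a := by
  have hGc := TQ_cont hG
  obtain ⟨Cb, hCb⟩ := TQ_bound hG
  have hGint : ∀ i, Integrable (fun x => G (q i * x)) Leb := by
    intro i
    exact Integrable.of_bound (C := Cb) ((hGc.comp (by fun_prop)).aestronglyMeasurable)
      (Filter.Eventually.of_forall fun x => hCb _)
  have h1 : ∫ x, ∏ i, (al + be * G (q i * x)) ∂Leb ≤ B ^ m := by
    have h2 := riesz hH (fun (_ : Fin m) x => al + be * G x)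
      (fun _ => TQ.add (TQ.const H al) (hG.const_mul be)) q hq
    rw [h2]
    calc ∏ i, ∫ x, (al + be * G (q i * x)) ∂Leb ≤ ∏ _i : Fin m, B := by
          refine prod_le_prod (fun i _ => integral_nonneg fun x => hpos _) fun i _ => ?_
          rw [integral_add (integrable_const _) ((hGint i).const_mul _), integral_const_mul]
          have h4 : ∫ _ : ℝ, al ∂Leb = al := by simp
          rw [h4]
          exact hB (q i) (hq.ne hH i)
      _ = B ^ m := by rw [prod_const, card_univ, Fintype.card_fin]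
  have hcont : Continuous (fun x : ℝ => ∏ i, (al + be * G (q i * x))) := by
    refine continuous_finsetProd _ fun i _ => ?_
    exact continuous_const.add (continuous_const.mul (hGc.comp (by fun_prop)))
  have hint : Integrable (fun x : ℝ => ∏ i, (al + be * G (q i * x))) Leb := by
    refine Integrable.of_bound (C := ∏ _i : Fin m, (|al| + |be| * Cb)) hcont.aestronglyMeasurable
      (Filter.Eventually.of_forall fun x => ?_)
    rw [norm_prod]
    refine prod_le_prod (fun i _ => norm_nonneg _) fun i _ => ?_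
    refine (norm_add_le _ _).trans ?_
    rw [norm_mul, Real.norm_eq_abs, Real.norm_eq_abs be]
    have := mul_le_mul_of_nonneg_left (hCb (q i * x)) (abs_nonneg be)
    linarith
  have h3 : a * Leb.real {x | a ≤ ∏ i, (al + be * G (q i * x))} ≤
      ∫ x, ∏ i, (al + be * G (q i * x)) ∂Leb :=
    mul_meas_ge_le_integral_of_nonneg (Filter.Eventually.of_forall fun x =>
      prod_nonneg fun i _ => hpos _) hint _
  rw [le_div_iff₀ ha, mul_comm]
  exact h3.trans h1

lemma gi_compl' (M : ℕ) (V : Finset ℕ) (x : ℝ) :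
    gi M (range (6 ^ M) \ V) x = 1 - gi M V x := by
  have h6 : (0 : ℝ) < (6 : ℝ) ^ M := by positivity
  rw [gi_val, gi_val]
  have h1 : ⌊(6 : ℝ) ^ M * Int.fract x⌋₊ < 6 ^ M := by
    rw [Nat.floor_lt (mul_nonneg h6.le (Int.fract_nonneg _))]
    push_cast
    have := Int.fract_lt_one x
    nlinarith
  by_cases h2 : ⌊(6 : ℝ) ^ M * Int.fract x⌋₊ ∈ V
  · rw [if_pos h2, if_neg]
    · ring
    · intro h3
      exact (mem_sdiff.1 h3).2 h2
  · rw [if_neg h2, if_pos (mem_sdiff.2 ⟨mem_range.2 h1, h2⟩)]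
    ring

lemma gi_01 (M : ℕ) (V : Finset ℕ) (x : ℝ) : gi M V x = 0 ∨ gi M V x = 1 := by
  rw [gi_val]
  split_ifs
  · exact Or.inr rfl
  · exact Or.inl rfl

lemma card_le_six (M : ℕ) (V : Finset ℕ) (hV : ∀ c ∈ V, c < 6 ^ M) : (V.card : ℝ) ≤ 6 ^ M := by
  have h1 : V ⊆ range (6 ^ M) := fun c hc => mem_range.2 (hV c hc)
  have h2 := card_le_card h1
  rw [card_range] at h2
  exact_mod_cast h2

/-- **the deviation inequality** -/
theorem dev (M : ℕ) (V : Finset ℕ) (hV : ∀ c ∈ V, c < 6 ^ M) (K : ℕ) (hK0 : 0 < K) (m : ℕ)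
    (hK : 12 * 6 ^ M * m ≤ K) (q : Fin m → ℤ) (hq : NoRel (K ^ 3) q) (Y : ℝ) (hY : 0 ≤ Y) :
    Leb.real {x | Y * (1 + √(m * ((V.card : ℝ) / 6 ^ M))) <
      |∑ i, gi M V (q i * x) - m * ((V.card : ℝ) / 6 ^ M)|} ≤ 2 * exp (2 - Y / 4) := by
  have h6 : (0 : ℝ) < (6 : ℝ) ^ M := by positivity
  have hKR : (0 : ℝ) < K := by exact_mod_cast hK0
  have hH : 1 ≤ K ^ 3 := Nat.one_le_iff_ne_zero.2 (by positivity)
  have hm0 : (0 : ℝ) ≤ m := Nat.cast_nonneg m
  set p : ℝ := (V.card : ℝ) / 6 ^ M with hp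
  have hp0 : 0 ≤ p := by positivity
  have hVc := card_le_six M V hV
  have hp1 : p ≤ 1 := by rw [hp, div_le_one h6]; exact hVc
  have hKc : 12 * (6 : ℝ) ^ M * m ≤ K := by exact_mod_cast hK
  set S : ℝ := √(m * p) with hS
  have hS0 : 0 ≤ S := Real.sqrt_nonneg _
  have hSS : S * S = m * p := Real.mul_self_sqrt (by positivity)
  set s : ℝ := 1 / (2 * (1 + S)) with hs
  have hs0 : 0 < s := by positivity
  have hs1 : s * (1 + S) = 1 / 2 := by rw [hs]; field_simp
  have hs2 : s ≤ 1 / 2 := by nlinarith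
  have hs3 : m * p * s ^ 2 ≤ 1 / 4 := by
    have h1 : s * S ≤ 1 / 2 := by nlinarith
    have h2 : 0 ≤ s * S := by positivity
    calc m * p * s ^ 2 = (s * S) * (s * S) := by rw [← hSS]; ring
      _ ≤ (1 / 2) * (1 / 2) := mul_le_mul h1 h1 h2 (by norm_num)
      _ = 1 / 4 := by norm_num
  set y : ℝ := Y * (1 + S) with hy
  have hy0 : 0 ≤ y := by positivity
  have hys : y * s = Y / 2 := by rw [hy]; linear_combination Y * hs1
  -- the upper deviations
  have hup : Leb.real {x | m * p + y ≤ ∑ i, gi M V (q i * x)} ≤ exp (2 - Y / 4) := by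
    obtain ⟨G, hG, hGm, hGi⟩ := majorant M V hV K hK0
    have hG0 : ∀ x, 0 ≤ G x := fun x => (gi_nonneg M V x).trans (hGm x)
    set ε : ℝ := V.card * (12 / K) with hε
    have hε0 : 0 ≤ ε := by positivity
    have hmε : m * ε ≤ 1 := by
      rw [hε]
      calc (m : ℝ) * (V.card * (12 / K)) ≤ m * (6 ^ M * (12 / K)) := by gcongr
        _ = (12 * (6 : ℝ) ^ M * m) / K := by ring
        _ ≤ 1 := by rw [div_le_one hKR]; exact hKc
    have h1 := markov hH hG 1 s (fun x => by have := hG0 x; positivity) (1 + s * (p + ε))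
      (fun l hl => by
        have := mul_le_mul_of_nonneg_left (hGi l hl) hs0.le
        linarith) q hq ((1 + s) ^ (m * p + y)) (by positivity)
    have h2 : {x | m * p + y ≤ ∑ i, gi M V (q i * x)} ⊆
        {x | (1 + s) ^ (m * p + y) ≤ ∏ i, (1 + s * G (q i * x))} := by
      intro x hx
      simp only [Set.mem_ofPred_eq] at hx ⊢
      have h3 : ∏ i, (1 + s) ^ (gi M V (q i * x)) ≤ ∏ i, (1 + s * G (q i * x)) := by
        refine prod_le_prod (fun i _ => by positivity) fun i _ => ?_
        have h4 := hGm (q i * x)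
        rcases gi_01 M V (q i * x) with h5 | h5
        · rw [h5, rpow_zero]
          have := hG0 (q i * x)
          nlinarith
        · rw [h5, rpow_one]
          rw [h5] at h4
          nlinarith
      refine le_trans ?_ h3
      rw [← Real.rpow_sum_of_pos (by positivity)]
      exact Real.rpow_le_rpow_of_exponent_le (by linarith) hx
    refine (measureReal_mono h2 (measure_ne_top _ _)).trans (h1.trans ?_)
    have h8 : (1 + s * (p + ε)) ^ m ≤ exp (m * (s * (p + ε))) := by
      rw [mul_comm (m : ℝ), Real.exp_mul, Real.rpow_natCast]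
      gcongr
      have := Real.add_one_le_exp (s * (p + ε))
      linarith
    have h9 : exp ((m * p + y) * (s - s ^ 2 / 2)) ≤ (1 + s) ^ (m * p + y) := by
      rw [Real.rpow_def_of_pos (by linarith), mul_comm (log (1 + s))]
      apply exp_le_exp.2
      have ha0 : 0 ≤ m * p + y := by positivity
      refine mul_le_mul_of_nonneg_left ?_ ha0
      have h10 := Real.le_log_one_add_of_nonneg hs0.le
      refine le_trans ?_ h10
      rw [le_div_iff₀ (by positivity)]
      nlinarith [hs0, sq_nonneg s, mul_pos hs0 hs0, mul_pos (mul_pos hs0 hs0) hs0]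
    rw [div_le_iff₀ (by positivity)]
    refine h8.trans ?_
    calc exp (m * (s * (p + ε))) ≤ exp ((2 - Y / 4) + (m * p + y) * (s - s ^ 2 / 2)) := by
          apply exp_le_exp.2
          have e1 : m * (s * (p + ε)) = s * (m * p) + s * (m * ε) := by ring
          have e2 : (m * p + y) * (s - s ^ 2 / 2) = s * (m * p) - m * p * s ^ 2 / 2 +
            y * s * (1 - s / 2) := by ring
          rw [e1, e2, hys]
          have e3 : s * (m * ε) ≤ 1 / 2 * 1 := by
            apply mul_le_mul hs2 hmε (by positivity) (by norm_num)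
          nlinarith
      _ = exp (2 - Y / 4) * exp ((m * p + y) * (s - s ^ 2 / 2)) := by rw [exp_add]
      _ ≤ exp (2 - Y / 4) * (1 + s) ^ (m * p + y) := by gcongr
  -- the lower deviations
  have hlow : Leb.real {x | ∑ i, gi M V (q i * x) ≤ m * p - y} ≤ exp (2 - Y / 4) := by
    rcases lt_or_ge (m * p - y) 0 with hneg | hnn
    · have h1 : {x : ℝ | ∑ i, gi M V (q i * x) ≤ m * p - y} = ∅ := by
        ext x
        simp only [Set.mem_ofPred_eq, Set.mem_empty_iff_false, iff_false, not_le]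
        exact hneg.trans_le (sum_nonneg fun i _ => gi_nonneg _ _ _)
      rw [h1, measureReal_empty]
      positivity
    set V' : Finset ℕ := range (6 ^ M) \ V with hV'
    have hV'lt : ∀ c ∈ V', c < 6 ^ M := fun c hc => mem_range.1 (mem_sdiff.1 hc).1
    have hV'c := card_le_six M V' hV'lt
    have hV'card : (V'.card : ℝ) / 6 ^ M = 1 - p := by
      have hsub : V ⊆ range (6 ^ M) := fun c hc => mem_range.2 (hV c hc)
      rw [hV', card_sdiff_of_subset hsub, card_range, Nat.cast_sub (by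
        have := card_le_card hsub
        rwa [card_range] at this), hp]
      push_cast
      field_simp
    obtain ⟨G, hG, hGm, hGi⟩ := majorant M V' hV'lt K hK0
    have hG0 : ∀ x, 0 ≤ G x := fun x => (gi_nonneg M V' x).trans (hGm x)
    set ε : ℝ := V'.card * (12 / K) with hε
    have hε0 : 0 ≤ ε := by positivity
    have hmε : m * ε ≤ 1 := by
      rw [hε]
      calc (m : ℝ) * (V'.card * (12 / K)) ≤ m * (6 ^ M * (12 / K)) := by gcongr
        _ = (12 * (6 : ℝ) ^ M * m) / K := by ring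
        _ ≤ 1 := by rw [div_le_one hKR]; exact hKc
    have hs4 : 0 < 1 - s := by linarith
    have h1 := markov hH hG (1 - s) s (fun x => by have := hG0 x; positivity)
      (1 - s * (p - ε))
      (fun l hl => by
        have := mul_le_mul_of_nonneg_left (hGi l hl) hs0.le
        rw [hV'card] at this
        linarith) q hq ((1 - s) ^ (m * p - y)) (by positivity)
    have h2 : {x | ∑ i, gi M V (q i * x) ≤ m * p - y} ⊆
        {x | (1 - s) ^ (m * p - y) ≤ ∏ i, (1 - s + s * G (q i * x))} := by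
      intro x hx
      simp only [Set.mem_ofPred_eq] at hx ⊢
      have h3 : ∏ i, (1 - s) ^ (gi M V (q i * x)) ≤ ∏ i, (1 - s + s * G (q i * x)) := by
        refine prod_le_prod (fun i _ => by positivity) fun i _ => ?_
        have h4 := hGm (q i * x)
        rw [gi_compl'] at h4
        rcases gi_01 M V (q i * x) with h5 | h5
        · rw [h5, rpow_zero]
          rw [h5] at h4
          nlinarith
        · rw [h5, rpow_one]
          have := hG0 (q i * x)
          nlinarith
      refine le_trans ?_ h3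
      rw [← Real.rpow_sum_of_pos (by positivity)]
      exact Real.rpow_le_rpow_of_exponent_ge hs4 (by linarith) hx
    refine (measureReal_mono h2 (measure_ne_top _ _)).trans (h1.trans ?_)
    have h8 : (1 - s * (p - ε)) ^ m ≤ exp (-(m * (s * (p - ε)))) := by
      have e1 : -(m * (s * (p - ε))) = (-(s * (p - ε))) * m := by ring
      rw [e1, Real.exp_mul, Real.rpow_natCast]
      have h9 : 0 ≤ 1 - s * (p - ε) := by nlinarith
      gcongr
      have := Real.add_one_le_exp (-(s * (p - ε)))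
      linarith
    have h9 : exp (-((m * p - y) * (s + 2 * s ^ 2))) ≤ (1 - s) ^ (m * p - y) := by
      rw [Real.rpow_def_of_pos hs4, mul_comm (log (1 - s)), ← mul_neg]
      apply exp_le_exp.2
      refine mul_le_mul_of_nonneg_left ?_ hnn
      -- `log (1 - s) ≥ - s - 2 s²`
      have h10 := Real.one_sub_inv_le_log_of_pos hs4
      refine le_trans ?_ h10
      have h11 : (1 - s)⁻¹ ≤ 1 + s + 2 * s ^ 2 := by
        rw [inv_le_iff_one_le_mul₀ hs4]
        nlinarith [mul_nonneg (sq_nonneg s) (by linarith : 0 ≤ 1 - 2 * s)]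
      linarith
    rw [div_le_iff₀ (by positivity)]
    refine h8.trans ?_
    calc exp (-(m * (s * (p - ε)))) ≤ exp ((2 - Y / 4) + -((m * p - y) * (s + 2 * s ^ 2))) := by
          apply exp_le_exp.2
          have e1 : -(m * (s * (p - ε))) = -(s * (m * p)) + s * (m * ε) := by ring
          have e2 : -((m * p - y) * (s + 2 * s ^ 2)) = -(s * (m * p)) - 2 * (m * p * s ^ 2) +
            y * s * (1 + 2 * s) := by ring
          rw [e1, e2, hys]
          have e3 : s * (m * ε) ≤ 1 / 2 * 1 := by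
            apply mul_le_mul hs2 hmε (by positivity) (by norm_num)
          nlinarith
      _ = exp (2 - Y / 4) * exp (-((m * p - y) * (s + 2 * s ^ 2))) := by rw [exp_add]
      _ ≤ exp (2 - Y / 4) * (1 - s) ^ (m * p - y) := by gcongr
  have hcov : {x | y < |∑ i, gi M V (q i * x) - m * p|} ⊆
      {x | m * p + y ≤ ∑ i, gi M V (q i * x)} ∪ {x | ∑ i, gi M V (q i * x) ≤ m * p - y} := by
    intro x hx
    simp only [Set.mem_union, Set.mem_ofPred_eq] at hx ⊢
    rcases lt_abs.1 hx with h | h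
    · left; linarith
    · right; linarith
  calc _ ≤ Leb.real ({x | m * p + y ≤ ∑ i, gi M V (q i * x)} ∪
        {x | ∑ i, gi M V (q i * x) ≤ m * p - y}) := measureReal_mono hcov (measure_ne_top _ _)
    _ ≤ _ := measureReal_union_le _ _
    _ ≤ 2 * exp (2 - Y / 4) := by linarith

end Pool.Agent.N639.FJ
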