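import Pool.Agent.N639.FJ.Win

/-!
# Project FJ: patterns of all sizes up to `C log N` along all lines
-/

set_option autoImplicit false

namespace Pool.Agent.N639.FJ

open Finset MeasureTheory Real Filter
open Pool.Agent.H429R2.Auto
open Pool.Agent.Y933.KH hiding majorant

/-- the patterns of at most `H` times and `H` cells -/
def Pats (H : ℕ) : Finset (Σ h : ℕ, Σ l : ℕ, (Fin h → Fin l → Fin 6)) :=
  (range (H + 1)).sigma fun h => (range (H + 1)).sigma fun l =>
    (Finset.univ : Finset (Fin h → Fin l → Fin 6))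

lemma Pats_card (H : ℕ) : (Pats H).card ≤ (H + 1) * ((H + 1) * 6 ^ (H * H)) := by
  unfold Pats
  rw [card_sigma]
  calc ∑ h ∈ range (H + 1), ((range (H + 1)).sigma fun l =>
        (Finset.univ : Finset (Fin h → Fin l → Fin 6))).card ≤
        ∑ _h ∈ range (H + 1), (H + 1) * 6 ^ (H * H) := by
        refine sum_le_sum fun h hh => ?_
        rw [card_sigma]
        calc ∑ l ∈ range (H + 1), (Finset.univ : Finset (Fin h → Fin l → Fin 6)).card ≤
              ∑ _l ∈ range (H + 1), 6 ^ (H * H) := by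
              refine sum_le_sum fun l hl => ?_
              rw [card_univ, Fintype.card_fun, Fintype.card_fun, Fintype.card_fin, Fintype.card_fin,
                Fintype.card_fin, ← pow_mul]
              rw [mem_range] at hh hl
              exact Nat.pow_le_pow_right (by norm_num) (Nat.mul_le_mul (by omega) (by omega))
          _ = (H + 1) * 6 ^ (H * H) := by rw [sum_const, card_range, smul_eq_mul]
    _ = (H + 1) * ((H + 1) * 6 ^ (H * H)) := by rw [sum_const, card_range, smul_eq_mul]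

lemma mem_Pats {H h l : ℕ} (hh : h ≤ H) (hl : l ≤ H) (w : Fin h → Fin l → Fin 6) :
    (⟨h, ⟨l, w⟩⟩ : Σ h : ℕ, Σ l : ℕ, (Fin h → Fin l → Fin 6)) ∈ Pats H := by
  unfold Pats
  rw [Finset.mem_sigma]
  refine ⟨mem_range.2 (by simp only; omega), ?_⟩
  rw [Finset.mem_sigma]
  exact ⟨mem_range.2 (by simp only; omega), mem_univ _⟩

/-- the growth conditions -/
lemma growth (η κ c c0 a U0 : ℝ) (hη : 0 < η) (hη1 : η ≤ 1) (hκ : 0 < κ) (hc : 0 < c) (hc0 : 0 < c0)
    (ha : 0 ≤ a) (C : ℝ) : ∃ N0 : ℕ, ∀ N : ℕ, N0 ≤ N → 1 ≤ N ∧ 1 ≤ log (N : ℝ) ∧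
      2 * C * log N + 1 ≤ κ / 2 * N ∧ 2 ≤ c0 * N ∧ (N : ℝ) ^ (η / 2) / 4 ≤ c * N ∧
      log (N : ℝ) ≤ (N : ℝ) ^ (η / 4) ∧ U0 ≤ (N : ℝ) ^ (η / 4) ∧
      (N : ℝ) ^ (η / 4) * (N : ℝ) ^ (η / 4) = (N : ℝ) ^ (η / 2) ∧
      U0 + a * log N ^ 2 + log N + (N : ℝ) ^ (η / 4) ≤ (N : ℝ) ^ (η / 2) / 4 := by
  have hcast : Tendsto (fun N : ℕ => (N : ℝ)) atTop atTop := tendsto_natCast_atTop_atTop
  have hlog : Tendsto (fun N : ℕ => log (N : ℝ)) atTop atTop := Real.tendsto_log_atTop.comp hcast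
  have hu : Tendsto (fun N : ℕ => (N : ℝ) ^ (η / 4)) atTop atTop :=
    (tendsto_rpow_atTop (by positivity)).comp hcast
  have hsq : Tendsto (fun N : ℕ => √(N : ℝ)) atTop atTop := Real.tendsto_sqrt_atTop.comp hcast
  have hL1 : ∀ᶠ N : ℕ in atTop, log (N : ℝ) ≤ 1 / (4 * (a + 1)) * (N : ℝ) ^ (η / 4) := by
    have h1 := (isLittleO_log_rpow_atTop (by positivity : 0 < η / 4)).bound
      (by positivity : 0 < 1 / (4 * (a + 1)))
    filter_upwards [hcast.eventually h1, hcast.eventually_ge_atTop 1] with N h2 h3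
    rw [Real.norm_eq_abs, Real.norm_eq_abs, abs_of_nonneg (Real.log_nonneg h3),
      abs_of_nonneg (by positivity)] at h2
    exact h2
  have hL2 : ∀ᶠ N : ℕ in atTop, log (N : ℝ) ≤ κ / (8 * (|C| + 1)) * N := by
    have h1 := Real.isLittleO_log_id_atTop.bound (by positivity : 0 < κ / (8 * (|C| + 1)))
    filter_upwards [hcast.eventually h1, hcast.eventually_ge_atTop 1] with N h2 h3
    rw [Real.norm_eq_abs, Real.norm_eq_abs, abs_of_nonneg (Real.log_nonneg h3), id,
      abs_of_nonneg (by positivity : (0 : ℝ) ≤ (N : ℝ))] at h2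
    exact h2
  obtain ⟨N0, hN0⟩ := eventually_atTop.1 ((eventually_ge_atTop 1).and
    ((hlog.eventually_ge_atTop 1).and (hL1.and (hL2.and
    ((hcast.eventually_ge_atTop (4 / κ)).and ((hcast.eventually_ge_atTop (2 / c0)).and
    ((hsq.eventually_ge_atTop (1 / (4 * c))).and (hu.eventually_ge_atTop (max U0 16)))))))))
  refine ⟨N0, fun N hN => ?_⟩
  obtain ⟨n1, n2, n3, n4, n5, n6, n7, n8⟩ := hN0 N hN
  have hN1 : (1 : ℝ) ≤ N := by exact_mod_cast n1
  have hNp : (0 : ℝ) < N := by linarith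
  set L : ℝ := log (N : ℝ) with hL
  set u : ℝ := (N : ℝ) ^ (η / 4) with hud
  have hu0 : 0 ≤ u := by positivity
  have hu16 : 16 ≤ u := (le_max_right _ _).trans n8
  have huU : U0 ≤ u := (le_max_left _ _).trans n8
  have huu : u * u = (N : ℝ) ^ (η / 2) := by
    rw [hud, ← Real.rpow_add hNp]
    congr 1
    ring
  have hsmall : 1 / (4 * (a + 1)) ≤ 1 / 4 := by
    apply one_div_le_one_div_of_le (by norm_num)
    linarith
  have hL4 : L ≤ 1 / 4 * u := n3.trans (mul_le_mul_of_nonneg_right hsmall hu0)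
  refine ⟨n1, n2, ?_, ?_, ?_, by linarith, huU, huu, ?_⟩
  · have h1 : 2 * C * L ≤ κ / 4 * N := by
      calc 2 * C * L ≤ 2 * (|C| + 1) * L := by
            have := le_abs_self C
            gcongr
            linarith
        _ ≤ 2 * (|C| + 1) * (κ / (8 * (|C| + 1)) * N) := by gcongr
        _ = κ / 4 * N := by
            have : (0 : ℝ) < |C| + 1 := by positivity
            field_simp
            ring
    have h2 : 1 ≤ κ / 4 * N := by
      rw [div_le_iff₀ hκ] at n5
      linarith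
    linarith
  · rw [div_le_iff₀ hc0] at n6
    linarith
  · have h1 : (N : ℝ) ^ (η / 2) ≤ √(N : ℝ) := by
      rw [Real.sqrt_eq_rpow]
      exact Real.rpow_le_rpow_of_exponent_le hN1 (by linarith)
    have h2 : √(N : ℝ) * √(N : ℝ) = N := Real.mul_self_sqrt hNp.le
    have h3 : 0 < √(N : ℝ) := Real.sqrt_pos.2 hNp
    rw [div_le_iff₀ (by positivity)] at n7
    nlinarith
  · rw [← huu]
    have h1 : a * L ^ 2 ≤ u * u / 16 := by
      have h2 : L ^ 2 ≤ (1 / (4 * (a + 1)) * u) ^ 2 := by gcongr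
      calc a * L ^ 2 ≤ a * (1 / (4 * (a + 1)) * u) ^ 2 := by gcongr
        _ = (a / (a + 1) ^ 2) * (u * u / 16) := by field_simp; ring
        _ ≤ 1 * (u * u / 16) := by
            gcongr
            rw [div_le_one (by positivity)]
            nlinarith
        _ = u * u / 16 := one_mul _
    have h3 : L ≤ u * u / 16 := by nlinarith
    have h4 : u ≤ u * u / 16 := by nlinarith
    linarith

open Classical in
/-- **patterns of all sizes up to `C log N` along all lines** -/
theorem main (A D : ℕ) (δ C η : ℝ) (hδ : 0 < δ) (hC : 0 ≤ C) (hη : 0 < η) (hη1 : η ≤ 1) :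
    ∃ N0 : ℕ, ∀ N : ℕ, N0 ≤ N → ∀ (y : Conf) (s : ℤ), ∃ Bad : Finset (Fin N → Fin 6),
      (Bad.card : ℝ) ≤ exp (-(N : ℝ) ^ (η / 4)) * 6 ^ N ∧
      ∀ v, v ∉ Bad → ∀ (h l : ℕ) (w : Fin h → Fin l → Fin 6), (h : ℝ) ≤ C * log N →
        (l : ℝ) ≤ C * log N → ∀ (a : ℕ) (b : ℤ), a ≤ D → |b| ≤ D →
        (a ≠ 0 ∨ b ≠ 0) → ∀ (n : ℕ) (i : ℤ) (T : ℕ),
        (∀ t < T, InC A N δ s (n + t * a) (i + t * b)) →
        |(cntR w n i a b T (put y s v) : ℝ) - T * frqR w| ≤ (N : ℝ) ^ η * (1 + √(T * frqR w)) := by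
  obtain ⟨g1, hg1, κ, c, C5, hκ, hc, hC5, hblock⟩ := one_blockR A D δ hδ
  have hg1R : (1 : ℝ) ≤ g1 := by exact_mod_cast hg1
  have hD0 : (0 : ℝ) ≤ D := Nat.cast_nonneg D
  have hA0 : (0 : ℝ) ≤ A := Nat.cast_nonneg A
  have hl2 : 0 < log (2 : ℝ) := Real.log_pos (by norm_num)
  have hl6 : 0 < log (6 : ℝ) := Real.log_pos (by norm_num)
  have hl12 : 0 < log (12 : ℝ) := Real.log_pos (by norm_num)
  -- the size of the blocks
  obtain ⟨c0, hc0, hc01, hc0a, hc0b⟩ : ∃ c0 : ℝ, 0 < c0 ∧ c0 ≤ 1 ∧ 2 * (D * c0) ≤ κ / 2 ∧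
      D * c0 ≤ δ / 2 := by
    refine ⟨min 1 (min (κ / (4 * (D + 1))) (δ / (2 * (D + 1)))),
      lt_min one_pos (lt_min (by positivity) (by positivity)), min_le_left _ _, ?_, ?_⟩
    · calc 2 * ((D : ℝ) * min 1 (min (κ / (4 * (D + 1))) (δ / (2 * (D + 1))))) ≤
            2 * (((D : ℝ) + 1) * (κ / (4 * (D + 1)))) := by
              gcongr
              · linarith
              · exact (min_le_right _ _).trans (min_le_left _ _)
        _ = κ / 2 := by field_simp; ring
    · calc (D : ℝ) * min 1 (min (κ / (4 * (D + 1))) (δ / (2 * (D + 1)))) ≤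
            ((D : ℝ) + 1) * (δ / (2 * (D + 1))) := by
              gcongr
              · linarith
              · exact (min_le_right _ _).trans (min_le_right _ _)
        _ = δ / 2 := by field_simp
  -- the constants
  obtain ⟨C1, hC1⟩ : ∃ C1 : ℝ, C1 = 2 + 3 * log 12 / log 2 + (9 * C * log 6 + 3) / log 2 := ⟨_, rfl⟩
  have hC10 : 0 < C1 := by rw [hC1]; positivity
  obtain ⟨C6, hC6⟩ : ∃ C6 : ℝ, C6 = (4 * A + 4) / c0 := ⟨_, rfl⟩
  have hC60 : 0 ≤ C6 := by rw [hC6]; positivity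
  obtain ⟨C7, hC7⟩ : ∃ C7 : ℝ, C7 = (C6 + 1) * (2 * (g1 * C1)) := ⟨_, rfl⟩
  obtain ⟨C8, hC8⟩ : ∃ C8 : ℝ, C8 = 2 * g1 * C1 * exp 2 := ⟨_, rfl⟩
  have hC80 : 0 ≤ C8 := by rw [hC8]; positivity
  obtain ⟨C4, hC4⟩ : ∃ C4 : ℝ, C4 = (D + 1) * (2 * D + 1) * (A + 1) * (2 * A + 2) * 2 := ⟨_, rfl⟩
  have hC40 : 0 < C4 := by rw [hC4]; positivity
  obtain ⟨N0, hN0⟩ := growth η κ c c0 (C ^ 2 * log 6 + 2 * C + 3)
    (max C7 (log (C4 * (C8 + C5 + 1)))) hη hη1 hκ hc hc0 (by positivity) C
  refine ⟨N0, fun N hN y s => ?_⟩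
  obtain ⟨n1, n2, n3, n4, n5, n6, n7, n8, n9⟩ := hN0 N hN
  have hN1 : (1 : ℝ) ≤ N := by exact_mod_cast n1
  have hNp : (0 : ℝ) < N := by linarith
  have h6N : (0 : ℝ) < (6 : ℝ) ^ N := by positivity
  set L : ℝ := log (N : ℝ) with hL
  set u : ℝ := (N : ℝ) ^ (η / 4) with hu
  set Y : ℝ := (N : ℝ) ^ (η / 2) with hY
  have hY1 : 1 ≤ Y := Real.one_le_rpow hN1 (by positivity)
  have hNexp : (N : ℝ) = exp L := (Real.exp_log hNp).symm
  obtain ⟨H, hH⟩ : ∃ H : ℕ, H = ⌊C * L⌋₊ := ⟨_, rfl⟩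
  have hCL : 0 ≤ C * L := by positivity
  have hH1 : (H : ℝ) ≤ C * L := by rw [hH]; exact Nat.floor_le hCL
  obtain ⟨G, hG⟩ : ∃ G : ℕ, G = ⌊c0 * N⌋₊ := ⟨_, rfl⟩
  have hG1 : (G : ℝ) ≤ c0 * N := by rw [hG]; exact Nat.floor_le (by positivity)
  have hG2 : c0 * N / 2 ≤ G := by
    have := (Nat.lt_floor_add_one (c0 * N)).le
    rw [← hG] at this
    linarith
  have hG0 : 0 < G := by
    have : (0 : ℝ) < G := by linarith
    exact_mod_cast this
  have hGN : G ≤ N := by
    have h1 : c0 * (N : ℝ) ≤ 1 * N := mul_le_mul_of_nonneg_right hc01 hNp.le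
    have : (G : ℝ) ≤ N := by linarith
    exact_mod_cast this
  obtain ⟨K, hK⟩ : ∃ K : ℕ, K = 12 * 6 ^ (3 * H) * N := ⟨_, rfl⟩
  have hK0 : 0 < K := by rw [hK]; positivity
  have hKR : (1 : ℝ) ≤ K := by exact_mod_cast hK0
  have hKp : (0 : ℝ) < K := by linarith
  obtain ⟨e, he⟩ : ∃ e : ℕ, e = ⌈log (2 * (K : ℝ) ^ 3) / log 2⌉₊ := ⟨_, rfl⟩
  have hlogK : log (2 * (K : ℝ) ^ 3) ≤ log 2 + 3 * log 12 + (9 * C * log 6 + 3) * L := by
    rw [Real.log_mul (by norm_num) (by positivity), Real.log_pow, hK]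
    push_cast
    rw [Real.log_mul (by positivity) (by positivity), Real.log_mul (by norm_num) (by positivity),
      Real.log_pow]
    push_cast
    have : (H : ℝ) * log 6 ≤ C * L * log 6 := by gcongr
    linarith
  have hlogK0 : log 2 ≤ log (2 * (K : ℝ) ^ 3) := by
    apply Real.log_le_log (by norm_num)
    have : (1 : ℝ) ≤ (K : ℝ) ^ 3 := one_le_pow₀ hKR
    linarith
  have he1 : 1 ≤ e := by
    rw [he, Nat.one_le_ceil_iff]
    exact div_pos (by linarith) hl2
  have he2 : (e : ℝ) ≤ C1 * L := by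
    have h1 : (e : ℝ) ≤ log (2 * (K : ℝ) ^ 3) / log 2 + 1 := by
      rw [he]
      exact (Nat.ceil_lt_add_one (div_nonneg (by linarith) hl2.le)).le
    have h2 : log (2 * (K : ℝ) ^ 3) / log 2 ≤ (log 2 + 3 * log 12 + (9 * C * log 6 + 3) * L) / log 2 := by
      gcongr
    have h3 : (log 2 + 3 * log 12 + (9 * C * log 6 + 3) * L) / log 2 =
        1 + 3 * log 12 / log 2 + (9 * C * log 6 + 3) / log 2 * L := by field_simp
    have h4 : 2 + 3 * log 12 / log 2 ≤ (2 + 3 * log 12 / log 2) * L := by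
      have : 0 ≤ 2 + 3 * log 12 / log 2 := by positivity
      exact le_mul_of_one_le_right this n2
    rw [hC1]
    calc (e : ℝ) ≤ 1 + 3 * log 12 / log 2 + (9 * C * log 6 + 3) / log 2 * L + 1 := by linarith
      _ ≤ (2 + 3 * log 12 / log 2 + (9 * C * log 6 + 3) / log 2) * L := by linarith
  have he3 : K ^ 3 + 1 ≤ 2 ^ e := by
    have h1 : log (2 * (K : ℝ) ^ 3) ≤ e * log 2 := by
      rw [← div_le_iff₀ hl2, he]
      exact Nat.le_ceil _
    have h2 : 2 * (K : ℝ) ^ 3 ≤ 2 ^ e := by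
      rw [← Real.exp_log (by positivity : 0 < 2 * (K : ℝ) ^ 3), ← Real.exp_log (by positivity : (0 : ℝ) < 2 ^ e),
        Real.log_pow]
      exact exp_le_exp.2 h1
    have h3 : (K : ℝ) ^ 3 + 1 ≤ 2 ^ e := by
      have : (1 : ℝ) ≤ (K : ℝ) ^ 3 := one_le_pow₀ hKR
      linarith
    exact_mod_cast h3
  have hKT : ∀ h l T : ℕ, h ≤ H → l ≤ H → T ≤ G → 12 * 6 ^ (l + 2 * h) * T ≤ K := by
    intro h l T hh hl hT
    rw [hK]
    exact Nat.mul_le_mul (Nat.mul_le_mul_left _ (Nat.pow_le_pow_right (by norm_num) (by omega)))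
      (hT.trans hGN)
  -- the index set
  obtain ⟨J, hJ⟩ : ∃ J : Finset ((Σ h : ℕ, Σ l : ℕ, (Fin h → Fin l → Fin 6)) × ℕ × ℤ × ℕ × ℤ × ℕ),
      J = ((Pats H) ×ˢ (range (D + 1)) ×ˢ
        (Finset.Icc (-(D : ℤ)) D) ×ˢ (range (A * N + 1)) ×ˢ
        (Finset.Icc (s - A * N) (s + N + A * N)) ×ˢ (range (G + 1))).filter
        (fun p => (p.2.1 ≠ 0 ∨ p.2.2.1 ≠ 0) ∧ InC A N δ s p.2.2.2.1 p.2.2.2.2.1) := ⟨_, rfl⟩
  obtain ⟨Ev, hEv⟩ : ∃ Ev : ((Σ h : ℕ, Σ l : ℕ, (Fin h → Fin l → Fin 6)) × ℕ × ℤ × ℕ × ℤ × ℕ) →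
      Finset (Fin N → Fin 6),
      Ev = fun p => (Finset.univ : Finset (Fin N → Fin 6)).filter (fun v =>
        2 * (g1 * e) * Y * (1 + √(p.2.2.2.2.2 * frqR p.1.2.2)) <
          |(cntR p.1.2.2 p.2.2.2.1 p.2.2.2.2.1 p.2.1 p.2.2.1 p.2.2.2.2.2 (put y s v) : ℝ) -
          p.2.2.2.2.2 * frqR p.1.2.2|) := ⟨_, rfl⟩
  refine ⟨J.biUnion Ev, ?_, ?_⟩
  · -- the number of bad words
    have h1 : ∀ p ∈ J, ((Ev p).card : ℝ) ≤
        (g1 * e * (2 * exp (2 - Y / 4)) + C5 * exp (-(c * N))) * 6 ^ N := by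
      rintro ⟨⟨h, l, w⟩, a, b, n, i, T⟩ hp
      rw [hJ, mem_filter] at hp
      simp only [mem_product, mem_range, Finset.mem_Icc] at hp
      obtain ⟨⟨hp0, hp1, hp2, hp3, hp4, hp5⟩, hp6, hp7⟩ := hp
      unfold Pats at hp0
      rw [Finset.mem_sigma] at hp0
      obtain ⟨q1, q2⟩ := hp0
      rw [Finset.mem_sigma] at q2
      obtain ⟨q2, _⟩ := q2
      simp only [mem_range] at q1 q2
      have hTG : T ≤ G := by omega
      have hTR : (T : ℝ) ≤ c0 * N := le_trans (by exact_mod_cast hTG) hG1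
      have hhR : (h : ℝ) ≤ C * L := le_trans (by
        have : h ≤ H := by omega
        exact_mod_cast this) hH1
      have hlR : (l : ℝ) ≤ C * L := le_trans (by
        have : l ≤ H := by omega
        exact_mod_cast this) hH1
      have h2 := hblock N y s w a b (by omega) (abs_le.2 hp2) hp6 n i e K T he1 hK0
        (hKT h l T (by omega) (by omega) hTG) he3 Y hY1 hp7 (by
          have : 2 * ((D : ℝ) * T) ≤ κ / 2 * N := by
            calc 2 * ((D : ℝ) * T) ≤ 2 * (D * (c0 * N)) := by gcongr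
              _ = (2 * (D * c0)) * N := by ring
              _ ≤ κ / 2 * N := by gcongr
          linarith) (by
          calc (D * T : ℝ) ≤ D * (c0 * N) := by gcongr
            _ = (D * c0) * N := by ring
            _ ≤ δ / 2 * N := by gcongr)
      rw [hEv]
      exact h2
    have h2 : (J.card : ℝ) ≤ C4 * exp ((C ^ 2 * log 6 + 2 * C + 3) * L ^ 2) := by
      have h3 : J.card ≤ ((H + 1) * ((H + 1) * 6 ^ (H * H))) * ((D + 1) * ((2 * D + 1) * ((A * N + 1) *
          (((2 * A + 1) * N + 1) * (G + 1))))) := by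
        rw [hJ]
        refine (card_filter_le _ _).trans ?_
        rw [card_product, card_product, card_product, card_product, card_product, card_range, card_range,
          card_range, Int.card_Icc, Int.card_Icc]
        have e1 : ((D : ℤ) + 1 - -D).toNat = 2 * D + 1 := by omega
        have e2 : (s + N + A * N + 1 - (s - A * N)).toNat = (2 * A + 1) * N + 1 := by
          have : s + N + A * N + 1 - (s - A * N) = (((2 * A + 1) * N + 1 : ℕ) : ℤ) := by
            push_cast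
            ring
          rw [this, Int.toNat_natCast]
        rw [e1, e2]
        exact Nat.mul_le_mul_right _ (Pats_card H)
      have h4 : (J.card : ℝ) ≤ (((H : ℝ) + 1) * (((H : ℝ) + 1) * 6 ^ (H * H))) * (((D : ℝ) + 1) *
          ((2 * D + 1) * ((A * N + 1) * (((2 * A + 1) * N + 1) * (G + 1))))) := by
        exact_mod_cast h3
      refine h4.trans ?_
      have h5 : (H : ℝ) + 1 ≤ exp (C * L) := by
        have := Real.add_one_le_exp (C * L)
        linarith
      have h6 : (6 : ℝ) ^ (H * H) ≤ exp (C ^ 2 * log 6 * L ^ 2) := by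
        rw [← Real.exp_log (by positivity : (0 : ℝ) < 6 ^ (H * H)), Real.log_pow]
        apply exp_le_exp.2
        push_cast
        calc (H : ℝ) * H * log 6 ≤ (C * L) * (C * L) * log 6 := by gcongr
          _ = C ^ 2 * log 6 * L ^ 2 := by ring
      have h7 : ((A : ℝ) * N + 1) ≤ (A + 1) * N := by linarith
      have h8 : ((2 * (A : ℝ) + 1) * N + 1) ≤ (2 * A + 2) * N := by linarith
      have h9 : ((G : ℝ) + 1) ≤ 2 * N := by
        have : (G : ℝ) ≤ N := by exact_mod_cast hGN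
        linarith
      calc _ ≤ (exp (C * L) * (exp (C * L) * exp (C ^ 2 * log 6 * L ^ 2))) * (((D : ℝ) + 1) *
          ((2 * D + 1) * (((A + 1) * N) * (((2 * A + 2) * N) * (2 * N))))) := by gcongr
        _ = C4 * (exp (C * L) * (exp (C * L) * exp (C ^ 2 * log 6 * L ^ 2)) * (N * (N * N))) := by
            rw [hC4]; ring
        _ = C4 * exp (C * L + (C * L + C ^ 2 * log 6 * L ^ 2) + (L + (L + L))) := by
            rw [exp_add, exp_add, exp_add, exp_add, exp_add, ← hNexp]
        _ ≤ C4 * exp ((C ^ 2 * log 6 + 2 * C + 3) * L ^ 2) := by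
            gcongr
            have h10 : L ≤ L ^ 2 := by
              have := mul_le_mul_of_nonneg_left n2 (by linarith : (0 : ℝ) ≤ L)
              rw [sq]
              linarith
            have h11 : C * L ≤ C * L ^ 2 := by gcongr
            linarith
    have h3 : g1 * e * (2 * exp (2 - Y / 4)) + C5 * exp (-(c * N)) ≤
        (C8 + C5 + 1) * exp (L - Y / 4) := by
      have h4 : exp (-(c * N)) ≤ exp (L - Y / 4) := by
        apply exp_le_exp.2
        have : 0 ≤ L := by linarith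
        linarith
      have h5 : (g1 : ℝ) * e * (2 * exp (2 - Y / 4)) ≤ C8 * exp (L - Y / 4) := by
        calc (g1 : ℝ) * e * (2 * exp (2 - Y / 4)) ≤ g1 * (C1 * L) * (2 * exp (2 - Y / 4)) := by gcongr
          _ = 2 * g1 * C1 * L * exp (2 - Y / 4) := by ring
          _ ≤ 2 * g1 * C1 * exp L * exp (2 - Y / 4) := by
              gcongr
              have := Real.add_one_le_exp L
              linarith
          _ = C8 * exp (L - Y / 4) := by
              rw [hC8, sub_eq_add_neg, sub_eq_add_neg, exp_add, exp_add]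
              ring
      have h6 : 0 < exp (L - Y / 4) := exp_pos _
      have h7 : C5 * exp (-(c * N)) ≤ C5 * exp (L - Y / 4) := mul_le_mul_of_nonneg_left h4 hC5
      have e1 : (C8 + C5 + 1) * exp (L - Y / 4) = C8 * exp (L - Y / 4) + C5 * exp (L - Y / 4) +
        exp (L - Y / 4) := by ring
      rw [e1]
      linarith
    have hP0 : 0 ≤ g1 * e * (2 * exp (2 - Y / 4)) + C5 * exp (-(c * N)) := by positivity
    calc (((J.biUnion Ev).card : ℕ) : ℝ) ≤ ∑ p ∈ J, ((Ev p).card : ℝ) := by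
          exact_mod_cast card_biUnion_le
      _ ≤ ∑ _p ∈ J, (g1 * e * (2 * exp (2 - Y / 4)) + C5 * exp (-(c * N))) * 6 ^ N := sum_le_sum h1
      _ = J.card * (g1 * e * (2 * exp (2 - Y / 4)) + C5 * exp (-(c * N))) * 6 ^ N := by
          rw [sum_const, nsmul_eq_mul]
          ring
      _ ≤ (C4 * exp ((C ^ 2 * log 6 + 2 * C + 3) * L ^ 2)) * ((C8 + C5 + 1) * exp (L - Y / 4)) * 6 ^ N := by
          gcongr
      _ = exp (log (C4 * (C8 + C5 + 1)) + (C ^ 2 * log 6 + 2 * C + 3) * L ^ 2 + (L - Y / 4)) * 6 ^ N := by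
          rw [exp_add, exp_add, Real.exp_log (by positivity)]
          ring
      _ ≤ exp (-u) * 6 ^ N := by
          gcongr
          have := le_max_right C7 (log (C4 * (C8 + C5 + 1)))
          linarith
  · intro v hv h l w hh hl a b ha hb hab n i T hc'
    have hTN := line_len hδ hab n1 hc'
    have hgood : ∀ (n : ℕ) (i : ℤ) (T : ℕ), InC A N δ s n i → T ≤ G →
        |(cntR w n i a b T (put y s v) : ℝ) - T * frqR w| ≤
          2 * (g1 * e) * Y * (1 + √(T * frqR w)) := by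
      intro n i T hin hT
      by_contra hcon
      push Not at hcon
      apply hv
      rw [mem_biUnion]
      refine ⟨⟨⟨h, l, w⟩, a, b, n, i, T⟩, ?_, ?_⟩
      · rw [hJ, mem_filter]
        simp only [mem_product, mem_range, Finset.mem_Icc]
        have hn := hin.1
        obtain ⟨i1, i2, i3⟩ := hin
        have hnR : (n : ℝ) ≤ A * N := by exact_mod_cast i1
        have hn0 : (0 : ℝ) ≤ n := Nat.cast_nonneg n
        have hk1 : (n : ℝ) * kap ≤ n := by
          have := mul_le_mul_of_nonneg_left kap_le_one hn0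
          linarith
        have hδN : 0 < δ * N := by positivity
        refine ⟨⟨mem_Pats (by rw [hH]; exact Nat.le_floor hh) (by rw [hH]; exact Nat.le_floor hl) w,
          by omega, abs_le.1 hb, by omega, ⟨?_, ?_⟩, by omega⟩, hab, ⟨i1, i2, i3⟩⟩
        · have : ((s - A * N : ℤ) : ℝ) ≤ i := by
            push_cast
            linarith
          exact_mod_cast this
        · have : (i : ℝ) ≤ ((s + N + A * N : ℤ) : ℝ) := by
            push_cast
            linarith
          exact_mod_cast this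
      · rw [hEv]
        simp only [mem_filter, mem_univ, true_and]
        exact hcon
    have hf0 : 0 ≤ frqR w := frqR_nonneg w
    set f : ℝ := frqR w with hf
    set E : ℝ := 2 * (g1 * e) * Y * (1 + √(T * f)) with hE
    have hmono : ∀ T' : ℕ, T' ≤ T → 2 * (g1 * e) * Y * (1 + √(T' * f)) ≤ E := by
      intro T' hT'
      rw [hE]
      have : (T' : ℝ) ≤ T := by exact_mod_cast hT'
      gcongr
    have hE0 : 0 ≤ E := by rw [hE]; positivity
    -- the blocks
    set q : ℕ := T / G with hq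
    have hqT : q * G + T % G = T := by
      rw [hq, mul_comm]
      exact Nat.div_add_mod T G
    have h1 : |(cntR w n i a b (q * G) (put y s v) : ℝ) - (q * G : ℕ) * f| ≤ q * E := by
      refine cntR_blocks w a b G (put y s v) E q n i fun k hk => ?_
      have hkG : k * G < T := by
        have h2 : (k + 1) * G ≤ q * G := Nat.mul_le_mul_right G hk
        have h3 : (k + 1) * G = k * G + G := by ring
        omega
      have hGT : G ≤ T := by
        have h2 : (k + 1) * G ≤ q * G := Nat.mul_le_mul_right G hk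
        have h3 : (k + 1) * G = k * G + G := by ring
        omega
      exact (hgood _ _ G (hc' (k * G) hkG) le_rfl).trans (hmono G hGT)
    have h2 : |(cntR w (n + (q * G) * a) (i + ((q * G : ℕ) : ℤ) * b) a b (T % G) (put y s v) : ℝ) -
        (T % G : ℕ) * f| ≤ E := by
      rcases Nat.eq_zero_or_pos (T % G) with h3 | h3
      · rw [h3]
        unfold cntR
        simp only [range_zero, filter_empty, card_empty, Nat.cast_zero, zero_mul, sub_zero, abs_zero]
        exact hE0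
      · refine (hgood _ _ (T % G) (hc' (q * G) (by omega)) (Nat.mod_lt T hG0).le).trans
          (hmono _ (Nat.mod_le T G))
    have h3 : |(cntR w n i a b T (put y s v) : ℝ) - T * f| ≤ (q + 1) * E := by
      have e1 : cntR w n i a b T (put y s v) = cntR w n i a b (q * G) (put y s v) +
          cntR w (n + (q * G) * a) (i + ((q * G : ℕ) : ℤ) * b) a b (T % G) (put y s v) := by
        conv_lhs => rw [← hqT]
        rw [cntR_add]
      have e2 : (T : ℝ) = (q * G : ℕ) + (T % G : ℕ) := by exact_mod_cast hqT.symm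
      have e3 : (cntR w n i a b T (put y s v) : ℝ) - T * f =
          ((cntR w n i a b (q * G) (put y s v) : ℝ) - (q * G : ℕ) * f) +
          ((cntR w (n + (q * G) * a) (i + ((q * G : ℕ) : ℤ) * b) a b (T % G) (put y s v) : ℝ) -
            (T % G : ℕ) * f) := by
        rw [e1, e2]
        push_cast
        ring
      rw [e3]
      refine (abs_add_le _ _).trans ?_
      have e4 : ((q : ℝ) + 1) * E = q * E + E := by ring
      rw [e4]
      exact add_le_add h1 h2
    refine h3.trans ?_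
    have hqR : (q : ℝ) ≤ C6 := by
      have hGR : (0 : ℝ) < G := by exact_mod_cast hG0
      have h4 : (q : ℝ) * G ≤ T := by
        have : q * G ≤ T := by omega
        exact_mod_cast this
      have h5 : (T : ℝ) ≤ (2 * A + 2) * N := by exact_mod_cast hTN
      have h6 : (q : ℝ) * (c0 * N / 2) ≤ (2 * A + 2) * N := by
        calc (q : ℝ) * (c0 * N / 2) ≤ q * G := by gcongr
          _ ≤ (2 * A + 2) * N := h4.trans h5
      rw [hC6, le_div_iff₀ hc0]
      have h7 : ((q : ℝ) * c0) * N ≤ (4 * A + 4) * N := by linarith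
      exact le_of_mul_le_mul_right h7 hNp
    have hroot : 0 ≤ 1 + √(T * f) := by positivity
    have hY0 : 0 ≤ Y := by linarith
    calc ((q : ℝ) + 1) * E ≤ (C6 + 1) * (2 * (g1 * (C1 * L)) * Y * (1 + √(T * f))) := by
          rw [hE]
          gcongr
      _ = C7 * L * Y * (1 + √(T * f)) := by rw [hC7]; ring
      _ ≤ u * u * Y * (1 + √(T * f)) := by
          have h4 : C7 ≤ u := (le_max_left _ _).trans n7
          have h5 : 0 ≤ L := by linarith
          have h6 : 0 ≤ u := by linarith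
          gcongr
      _ = (N : ℝ) ^ η * (1 + √(T * f)) := by
          have e1 : Y * Y = (N : ℝ) ^ η := by
            rw [hY, ← Real.rpow_add hNp]
            congr 1
            ring
          rw [n8, e1]

end Pool.Agent.N639.FJ
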