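import Pool.Agent.Y933.KH.BLD
import Pool.Agent.N639.FJ.Ld

/-!
# Project FJ: rectangular patterns; deviations for the Bernoulli measure
-/

set_option autoImplicit false

namespace Pool.Agent.N639.FJ

open Finset MeasureTheory Real
open Pool.Agent.H429R2.Auto
open Pool.Agent.Y933.KD (Leb)
open Pool.Agent.Y933.KH hiding majorant

/-- the pattern `w` of `h` times and `l` cells stands at the cell `(n, i)` -/
def OccR {h l : ℕ} (w : Fin h → Fin l → Fin 6) (n : ℕ) (i : ℤ) (x : Conf) : Prop :=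
  ∀ (a : Fin h) (b : Fin l), F^[n + a] x (i + b) = w a b

open Classical in
/-- the codes of the rows which show the pattern -/
noncomputable def VR {h l : ℕ} (w : Fin h → Fin l → Fin 6) : Finset ℕ :=
  (range (6 ^ (l + 2 * h))).filter (fun c => ∃ x : Conf, rd (-h - 1) (l + 2 * h) x = c ∧ OccR w 0 0 x)

lemma occR_local {h l : ℕ} {w : Fin h → Fin l → Fin 6} {x x' : Conf}
    (hr : rd (-h - 1) (l + 2 * h) x = rd (-h - 1) (l + 2 * h) x') (ho : OccR w 0 0 x) :
    OccR w 0 0 x' := by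
  intro a b
  rw [← ho a b]
  have ha := a.2
  have hb := b.2
  symm
  refine iter_local (0 + a) (a := 0 + b) (b := 0 + b) (fun c hl1 hl2 => ?_) _ le_rfl le_rfl
  push_cast at hl1 hl2
  have h2 := (agree_wr (-h - 1) (l + 2 * h) _ (rd_lt _ _ _) x).2 hr c
    (by omega) (by push_cast; omega)
  have h3 := (agree_wr (-h - 1) (l + 2 * h) _ (rd_lt _ _ _) x').2 rfl c
    (by omega) (by push_cast; omega)
  rw [h2, h3]

lemma occR_shL {h l : ℕ} (w : Fin h → Fin l → Fin 6) (n : ℕ) (i : ℤ) (x : Conf) :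
    OccR w n i x ↔ OccR w 0 0 (shL i (F^[n] x)) := by
  unfold OccR
  refine forall_congr' fun a => forall_congr' fun b => ?_
  rw [zero_add, iter_shL, ← Function.iterate_add_apply, add_comm (a : ℕ) n]
  unfold shL
  rw [show (0 : ℤ) + b + i = i + b by ring]

lemma occR_iff {h l : ℕ} (w : Fin h → Fin l → Fin 6) (n : ℕ) (i : ℤ) (x : Conf) :
    OccR w n i x ↔ rd (i - h - 1) (l + 2 * h) (F^[n] x) ∈ VR w := by
  classical
  rw [occR_shL]
  have h1 : rd (i - h - 1) (l + 2 * h) (F^[n] x) = rd (-h - 1) (l + 2 * h) (shL i (F^[n] x)) := by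
    rw [rd_shL]
    congr 1
    ring
  rw [h1]
  unfold VR
  rw [mem_filter, mem_range]
  constructor
  · intro h
    exact ⟨rd_lt _ _ _, _, rfl, h⟩
  · rintro ⟨_, x', h2, h3⟩
    exact occR_local h2 h3

/-- the frequency of a pattern -/
noncomputable def frqR {h l : ℕ} (w : Fin h → Fin l → Fin 6) : ℝ := bern.real {x | OccR w 0 0 x}

lemma frqR_nonneg {h l : ℕ} (w : Fin h → Fin l → Fin 6) : 0 ≤ frqR w := measureReal_nonneg

lemma frqR_le {h l : ℕ} (w : Fin h → Fin l → Fin 6) : frqR w ≤ 1 := measureReal_le_one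

lemma frqR_val {h l : ℕ} (w : Fin h → Fin l → Fin 6) :
    frqR w = ((VR w).card : ℝ) / 6 ^ (l + 2 * h) := by
  classical
  have hdep : DepOn (-h - 1) (l + 2 * h) {x | OccR w 0 0 x} := by
    intro x x' hx
    have h1 : rd (-h - 1) (l + 2 * h) x = rd (-h - 1) (l + 2 * h) x' := by
      rw [← agree_wr (-h - 1) (l + 2 * h) _ (rd_lt _ _ _)]
      intro c h2 h3
      rw [hx c h2 h3]
      exact (agree_wr (-h - 1) (l + 2 * h) _ (rd_lt _ _ _) x').2 rfl c h2 h3
    exact ⟨occR_local h1, occR_local h1.symm⟩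
  unfold frqR
  rw [bern_dep hdep]
  congr 3
  unfold VR
  refine filter_congr fun W hW => ?_
  have hW' := mem_range.1 hW
  have h1 : rd (-h - 1) (l + 2 * h) (wr (-h - 1) (l + 2 * h) W) = W :=
    (agree_wr (-h - 1) (l + 2 * h) W hW' _).1 fun _ _ _ => rfl
  constructor
  · intro h
    exact ⟨_, h1, h⟩
  · rintro ⟨x, h2, h3⟩
    exact occR_local (h2.trans h1.symm) h3

lemma VR_lt {h l : ℕ} (w : Fin h → Fin l → Fin 6) : ∀ c ∈ VR w, c < 6 ^ (l + 2 * h) := by
  classical
  intro c hc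
  unfold VR at hc
  exact mem_range.1 (mem_filter.1 hc).1

/-- an occurrence, in terms of the indicator function -/
lemma gi_occR {h l : ℕ} (w : Fin h → Fin l → Fin 6) {z : ℝ} (hz : 0 ≤ z) (s0 : ℤ) (n : ℕ) (i : ℤ)
    (hn : (n : ℤ) ≤ i - h - 1 - s0) [Decidable (OccR w n i (dg (z * 6 ^ (-s0))))] :
    gi (l + 2 * h) (VR w) (qd n (i - h - 1 - s0) * z) =
      if OccR w n i (dg (z * 6 ^ (-s0))) then 1 else 0 := by
  have hβ : 0 ≤ z * (6 : ℝ) ^ (-s0) := by positivity
  have h1 := occR_iff w n i (dg (z * 6 ^ (-s0)))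
  rw [rd_floor (by positivity) (rep_iter hβ (rep_dg _) n)] at h1
  have e1 : (6 : ℝ) ^ (i - h - 1) * ((3 / 2) ^ n * (z * 6 ^ (-s0))) = qd n (i - h - 1 - s0) * z := by
    rw [qd_val hn, zpow_sub₀ (by norm_num) (i - h - 1) s0, zpow_neg]
    ring
  rw [e1] at h1
  rw [gi_val]
  by_cases h2 : OccR w n i (dg (z * 6 ^ (-s0)))
  · rw [if_pos h2, if_pos (h1.1 h2)]
  · rw [if_neg h2, if_neg fun h3 => h2 (h1.2 h3)]

open Classical in
/-- the number of occurrences along a line -/
noncomputable def cntR {h l : ℕ} (w : Fin h → Fin l → Fin 6) (n : ℕ) (i : ℤ) (a : ℕ) (b : ℤ) (T : ℕ)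
    (x : Conf) : ℕ := ((range T).filter (fun t => OccR w (n + t * a) (i + t * b) x)).card

lemma sum_split (T g : ℕ) (f : ℕ → ℝ) :
    ∑ t ∈ range T, f t = ∑ r ∈ range g, ∑ j ∈ range (T / g), f (r + g * j) +
      ∑ t ∈ range (T % g), f (g * (T / g) + t) := by
  conv_lhs => rw [← Nat.div_add_mod T g, sum_range_add]
  rw [sum_res]

/-- **deviations for the Bernoulli measure** -/
theorem bern_dev (D : ℕ) : ∃ g1 : ℕ, 1 ≤ g1 ∧ ∀ {h l : ℕ} (w : Fin h → Fin l → Fin 6) (a : ℕ) (b : ℤ),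
    a ≤ D → |b| ≤ D → (a ≠ 0 ∨ b ≠ 0) → ∀ (n : ℕ) (i : ℤ) (e K T : ℕ), 1 ≤ e → 0 < K →
      12 * 6 ^ (l + 2 * h) * T ≤ K → K ^ 3 + 1 ≤ 2 ^ e → ∀ Y : ℝ, 1 ≤ Y →
      bern.real {x | 2 * (g1 * e) * Y * (1 + √(T * frqR w)) <
        |(cntR w n i a b T x : ℝ) - T * frqR w|} ≤ g1 * e * (2 * exp (2 - Y / 4)) := by
  classical
  obtain ⟨g1, hg1, hgap1⟩ := exists_gap D 1
  refine ⟨g1, hg1, ?_⟩
  intro h l w a b ha hb hab n i e K T he hK0 hKT hKe Y hY
  set g : ℕ := g1 * e with hg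
  have hg0 : 1 ≤ g := Nat.mul_le_mul hg1 he
  have hgR : ((g1 : ℝ) * e) = g := by rw [hg]; push_cast; ring
  rw [hgR]
  have hgap : ((K ^ 3 : ℕ) : ℝ) + 1 ≤ rho a b ^ g ∨ (((K ^ 3 : ℕ) : ℝ) + 1) * rho a b ^ g ≤ 1 := by
    have h1 : ((K ^ 3 : ℕ) : ℝ) + 1 ≤ 2 ^ e := by exact_mod_cast hKe
    have h2 := rho_pos a b
    rcases hgap1 a b ha hb hab with h3 | h3
    · left
      calc ((K ^ 3 : ℕ) : ℝ) + 1 ≤ 2 ^ e := h1
        _ ≤ (rho a b ^ g1) ^ e := by
            gcongr
            push_cast at h3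
            linarith
        _ = rho a b ^ g := by rw [hg, pow_mul]
    · right
      calc (((K ^ 3 : ℕ) : ℝ) + 1) * rho a b ^ g ≤ 2 ^ e * rho a b ^ g := by gcongr
        _ = (2 * rho a b ^ g1) ^ e := by rw [hg, pow_mul, mul_pow]
        _ ≤ 1 ^ e := by
            gcongr
            push_cast at h3
            linarith
        _ = 1 := one_pow e
  set M : ℕ := l + 2 * h with hM
  set V : Finset ℕ := VR w with hV
  have hVlt := VR_lt w
  set f0 : ℝ := frqR w with hf0
  have hf0v : f0 = (V.card : ℝ) / 6 ^ M := frqR_val w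
  have hf00 : 0 ≤ f0 := frqR_nonneg w
  have hf01 : f0 ≤ 1 := frqR_le w
  set m : ℕ := T / g with hm
  obtain ⟨s0, hs0⟩ : ∃ s0 : ℤ, s0 = i - 2 * (D * T) - h - 1 - n := ⟨_, rfl⟩
  have hbd : ∀ t : ℕ, t < T → (t : ℤ) * a ≤ D * T ∧ -((D : ℤ) * T) ≤ t * b ∧
      (t : ℤ) * b ≤ D * T := by
    intro t ht
    have h1 : (t : ℤ) ≤ T := by exact_mod_cast ht.le
    have h0 : (0 : ℤ) ≤ t := by omega
    have h2 : (a : ℤ) ≤ D := by exact_mod_cast ha
    obtain ⟨h3, h4⟩ := abs_le.1 hb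
    have hD : (0 : ℤ) ≤ D := by omega
    refine ⟨?_, ?_, ?_⟩
    · calc (t : ℤ) * a ≤ T * D := by
            apply mul_le_mul h1 h2 (by omega) (by positivity)
        _ = D * T := by ring
    · have : (t : ℤ) * (-b) ≤ T * D := by
        calc (t : ℤ) * (-b) ≤ t * D := by
              apply mul_le_mul_of_nonneg_left (by linarith) h0
          _ ≤ T * D := mul_le_mul_of_nonneg_right h1 hD
      linarith
    · calc (t : ℤ) * b ≤ t * D := mul_le_mul_of_nonneg_left h4 h0
        _ ≤ T * D := mul_le_mul_of_nonneg_right h1 hD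
        _ = D * T := by ring
  have hlev : ∀ t : ℕ, t < T → ((n + t * a : ℕ) : ℤ) ≤ (i + t * b) - h - 1 - s0 := by
    intro t ht
    obtain ⟨h1, h2, h3⟩ := hbd t ht
    rw [hs0]
    push_cast
    linarith
  -- the multipliers
  set Q : ℕ → ℤ := fun t => qd (n + t * a) ((i + t * b) - h - 1 - s0) with hQ
  have hQv : ∀ t : ℕ, t < T → ((Q t : ℤ) : ℝ) =
      ((6 : ℝ) ^ (i - h - 1 - s0) * (3 / 2) ^ n) * rho a b ^ t := by
    intro t ht
    rw [hQ]
    simp only
    rw [qd_val (hlev t ht)]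
    unfold rho
    rw [show (i + t * b) - h - 1 - s0 = (i - h - 1 - s0) + b * t by ring, zpow_add₀ (by norm_num),
      zpow_mul, zpow_natCast, pow_add, mul_comm t a, pow_mul, mul_pow]
    ring
  obtain ⟨B, hB⟩ : ∃ B : Set Conf, B = {x | 2 * (g : ℝ) * Y * (1 + √(T * f0)) <
    |(cntR w n i a b T x : ℝ) - T * f0|} := ⟨_, rfl⟩
  obtain ⟨L, hL⟩ : ∃ L : ℕ, L = 4 * (D * T) + l + 2 * h + 2 * n + 1 := ⟨_, rfl⟩
  have hdep : DepOn s0 L B := by
    intro x x' hxx
    have h1 : cntR w n i a b T x = cntR w n i a b T x' := by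
      unfold cntR
      congr 1
      refine filter_congr fun t ht => ?_
      obtain ⟨h1, h2, h3⟩ := hbd t (mem_range.1 ht)
      unfold OccR
      refine forall_congr' fun a' => forall_congr' fun b' => ?_
      have ha' := a'.2
      have hb' := b'.2
      have h4 : F^[n + t * a + a'] x (i + t * b + b') = F^[n + t * a + a'] x' (i + t * b + b') := by
        refine iter_local (n + t * a + a') (a := i + t * b + b') (b := i + t * b + b')
          (fun c hl1 hl2 => ?_) _ le_rfl le_rfl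
        push_cast at hl1 hl2
        have ha'' : ((a' : ℕ) : ℤ) < h := by exact_mod_cast ha'
        have hb'' : ((b' : ℕ) : ℤ) < l := by exact_mod_cast hb'
        have hb0 : (0 : ℤ) ≤ ((b' : ℕ) : ℤ) := by omega
        have ha0 : (0 : ℤ) ≤ ((a' : ℕ) : ℤ) := by omega
        refine hxx c ?_ ?_
        · rw [hs0]
          linarith
        · rw [hs0, hL]
          push_cast
          linarith
      rw [h4]
    rw [hB]
    simp only [Set.mem_ofPred_eq]
    rw [h1]
  obtain ⟨U, hU⟩ : ∃ U : Set ℝ, U = {z | 2 * (g : ℝ) * Y * (1 + √(T * f0)) <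
    |∑ t ∈ range T, gi M V (Q t * z) - T * f0|} := ⟨_, rfl⟩
  have hUB : ∀ z : ℝ, 0 ≤ z → (z ∈ U ↔ dg (z * 6 ^ (-s0)) ∈ B) := by
    intro z hz
    rw [hU, hB]
    simp only [Set.mem_ofPred_eq]
    have h1 : ∑ t ∈ range T, gi M V (Q t * z) =
        (cntR w n i a b T (dg (z * 6 ^ (-s0))) : ℝ) := by
      unfold cntR
      rw [card_filter]
      push_cast
      refine sum_congr rfl fun t ht => ?_
      exact gi_occR w hz s0 (n + t * a) (i + t * b) (hlev t (mem_range.1 ht))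
    rw [h1]
  rw [show {x | 2 * (g : ℝ) * Y * (1 + √(T * f0)) < |(cntR w n i a b T x : ℝ) - T * f0|} = B
    from hB.symm, bern_dep hdep, ← leb_dep hdep hUB]
  -- split into residue classes
  have hlt : ∀ r < g, ∀ j < m, r + g * j < T := by
    intro r hr j hj
    have h1 : g * (j + 1) ≤ g * m := Nat.mul_le_mul_left g hj
    have h2 : g * m ≤ T := by rw [hm]; exact Nat.mul_div_le T g
    calc r + g * j < g + g * j := by omega
      _ = g * (j + 1) := by ring
      _ ≤ T := h1.trans h2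
  have hrel : ∀ r < g, NoRel (K ^ 3) (fun j : Fin m => Q (r + g * j)) := by
    intro r hr
    have hpos : (0 : ℝ) < (6 : ℝ) ^ (i - h - 1 - s0) * (3 / 2) ^ n := by positivity
    refine norel_geo (r := rho a b ^ g) (a := ((6 : ℝ) ^ (i - h - 1 - s0) * (3 / 2) ^ n) * rho a b ^ r)
      (mul_pos hpos (pow_pos (rho_pos a b) r)).ne' (pow_pos (rho_pos a b) g)
      hgap _ fun j => ?_
    rw [hQv _ (hlt r hr j j.2), pow_add, pow_mul]
    ring
  set U1 : ℕ → Set ℝ := fun r => {z | Y * (1 + √(m * ((V.card : ℝ) / 6 ^ M))) <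
    |∑ j : Fin m, gi M V ((Q (r + g * j) : ℤ) * z) - m * ((V.card : ℝ) / 6 ^ M)|} with hU1
  have hcov : U ⊆ ⋃ r ∈ range g, U1 r := by
    intro z hz
    rw [hU] at hz
    simp only [Set.mem_ofPred_eq] at hz
    by_contra hcon
    simp only [Set.mem_iUnion, not_exists] at hcon
    apply absurd hz
    push Not
    rw [sum_split T g (fun t => gi M V (Q t * z)), ← hm]
    have hmT : (m : ℝ) ≤ T := by
      have : m ≤ T := by rw [hm]; exact Nat.div_le_self _ _
      exact_mod_cast this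
    have h1 : ∀ r ∈ range g, |∑ j ∈ range m, gi M V (Q (r + g * j) * z) - m * f0| ≤
        Y * (1 + √(T * f0)) := by
      intro r hr
      have h2 := hcon r hr
      rw [hU1] at h2
      simp only [Set.mem_ofPred_eq, not_lt] at h2
      rw [← hf0v, Fin.sum_univ_eq_sum_range (fun j => gi M V ((Q (r + g * j) : ℤ) * z)) m] at h2
      refine h2.trans ?_
      gcongr
    have e1 : (T : ℝ) = g * m + (T % g : ℕ) := by
      have := Nat.div_add_mod T g
      rw [← hm] at this
      exact_mod_cast this.symm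
    have h2 : ∑ r ∈ range g, ∑ j ∈ range m, gi M V (Q (r + g * j) * z) +
        ∑ t ∈ range (T % g), gi M V (Q (g * m + t) * z) - T * f0 =
        ∑ r ∈ range g, (∑ j ∈ range m, gi M V (Q (r + g * j) * z) - m * f0) +
        ∑ t ∈ range (T % g), (gi M V (Q (g * m + t) * z) - f0) := by
      rw [sum_sub_distrib, sum_sub_distrib, sum_const, sum_const, card_range, card_range,
        nsmul_eq_mul, nsmul_eq_mul]
      linear_combination (-f0) * e1
    rw [h2]
    have h3 : |∑ t ∈ range (T % g), (gi M V (Q (g * m + t) * z) - f0)| ≤ g := by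
      refine (abs_sum_le_sum_abs _ _).trans ?_
      calc ∑ t ∈ range (T % g), |gi M V (Q (g * m + t) * z) - f0| ≤ ∑ t ∈ range (T % g), (1 : ℝ) := by
            refine sum_le_sum fun t _ => ?_
            rcases gi_01 M V (Q (g * m + t) * z) with h4 | h4
            · rw [h4, abs_le]; constructor <;> linarith
            · rw [h4, abs_le]; constructor <;> linarith
        _ = ((T % g : ℕ) : ℝ) := by rw [sum_const, card_range, nsmul_eq_mul, mul_one]
        _ ≤ g := by exact_mod_cast (Nat.mod_lt T hg0).le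
    have h4 : |∑ r ∈ range g, (∑ j ∈ range m, gi M V (Q (r + g * j) * z) - m * f0)| ≤
        g * (Y * (1 + √(T * f0))) := by
      refine (abs_sum_le_sum_abs _ _).trans ((sum_le_sum h1).trans ?_)
      rw [sum_const, card_range, nsmul_eq_mul]
    have h5 : (g : ℝ) ≤ g * (Y * (1 + √(T * f0))) := by
      have h6 : (1 : ℝ) ≤ Y * (1 + √(T * f0)) := by
        have : 0 ≤ √(T * f0) := Real.sqrt_nonneg _
        nlinarith
      have : (0 : ℝ) ≤ g := Nat.cast_nonneg g
      nlinarith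
    calc _ ≤ |∑ r ∈ range g, (∑ j ∈ range m, gi M V (Q (r + g * j) * z) - m * f0)| +
          |∑ t ∈ range (T % g), (gi M V (Q (g * m + t) * z) - f0)| := abs_add_le _ _
      _ ≤ g * (Y * (1 + √(T * f0))) + g * (Y * (1 + √(T * f0))) := by linarith
      _ = 2 * (g : ℝ) * Y * (1 + √(T * f0)) := by ring
  have hKm : 12 * 6 ^ M * m ≤ K := by
    refine le_trans ?_ hKT
    have : m ≤ T := by rw [hm]; exact Nat.div_le_self _ _
    exact Nat.mul_le_mul_left _ this
  calc Leb.real U ≤ Leb.real (⋃ r ∈ range g, U1 r) := measureReal_mono hcov (measure_ne_top _ _)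
    _ ≤ ∑ r ∈ range g, Leb.real (U1 r) := measureReal_biUnion_finset_le _ _
    _ ≤ ∑ r ∈ range g, 2 * exp (2 - Y / 4) := by
        refine sum_le_sum fun r hr => ?_
        exact dev M V hVlt K hK0 m hKm _ (hrel r (mem_range.1 hr)) Y (by linarith)
    _ = g * (2 * exp (2 - Y / 4)) := by
        rw [sum_const, card_range, nsmul_eq_mul]

end Pool.Agent.N639.FJ
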