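import Pool.Agent.Y933.KH.Freq
import Pool.Agent.N639.FJ.Pat

/-!
# Project FJ: random windows
-/

set_option autoImplicit false

namespace Pool.Agent.N639.FJ

open Finset MeasureTheory Real Filter
open Pool.Agent.H429R2.Auto
open Pool.Agent.Y933.KH hiding majorant

lemma cntR_add {h l : ℕ} (w : Fin h → Fin l → Fin 6) (n : ℕ) (i : ℤ) (a : ℕ) (b : ℤ) (T1 T2 : ℕ)
    (x : Conf) : cntR w n i a b (T1 + T2) x =
      cntR w n i a b T1 x + cntR w (n + T1 * a) (i + T1 * b) a b T2 x := by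
  classical
  unfold cntR
  rw [card_filter, card_filter, card_filter, sum_range_add]
  congr 1
  refine sum_congr rfl fun t _ => ?_
  rw [show n + (T1 + t) * a = n + T1 * a + t * a by ring]
  rw [show i + ((T1 + t : ℕ) : ℤ) * b = i + T1 * b + t * b by push_cast; ring]

lemma cntR_blocks {h l : ℕ} (w : Fin h → Fin l → Fin 6) (a : ℕ) (b : ℤ) (G : ℕ) (x : Conf) (E : ℝ)
    (K : ℕ) (n : ℕ) (i : ℤ)
    (hk : ∀ k < K, |(cntR w (n + (k * G) * a) (i + ((k * G : ℕ) : ℤ) * b) a b G x : ℝ) - G * frqR w| ≤ E) :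
    |(cntR w n i a b (K * G) x : ℝ) - (K * G : ℕ) * frqR w| ≤ K * E := by
  induction K with
  | zero => simp [cntR]
  | succ K ih =>
    have h1 := ih fun k hk' => hk k (by omega)
    have h2 := hk K (by omega)
    rw [Nat.succ_mul, cntR_add]
    push_cast at h1 h2 ⊢
    rw [abs_le] at h1 h2 ⊢
    constructor <;> nlinarith [h1.1, h1.2, h2.1, h2.2]

open Classical in
/-- one block of a line -/
lemma one_blockR (A D : ℕ) (δ : ℝ) (hδ : 0 < δ) :
    ∃ g1 : ℕ, 1 ≤ g1 ∧ ∃ κ c C : ℝ, 0 < κ ∧ 0 < c ∧ 0 ≤ C ∧ ∀ (N : ℕ) (y : Conf) (s : ℤ) {h l : ℕ}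
      (w : Fin h → Fin l → Fin 6) (a : ℕ) (b : ℤ), a ≤ D → |b| ≤ D → (a ≠ 0 ∨ b ≠ 0) →
      ∀ (n : ℕ) (i : ℤ) (e K T : ℕ), 1 ≤ e → 0 < K → 12 * 6 ^ (l + 2 * h) * T ≤ K →
      K ^ 3 + 1 ≤ 2 ^ e → ∀ Y : ℝ, 1 ≤ Y → InC A N δ s n i →
      (2 * (D * T) + l + h + 1 : ℝ) ≤ κ * N → (D * T : ℝ) ≤ δ / 2 * N →
      (((Finset.univ : Finset (Fin N → Fin 6)).filter (fun v =>
        2 * (g1 * e) * Y * (1 + √(T * frqR w)) <
          |(cntR w n i a b T (put y s v) : ℝ) - T * frqR w|)).card : ℝ) ≤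
        (g1 * e * (2 * exp (2 - Y / 4)) + C * exp (-(c * N))) * 6 ^ N := by
  obtain ⟨g1, hg1, hld⟩ := bern_dev D
  obtain ⟨κ, c, C, hκ, hc, hbox⟩ := box_law 1 A (δ / 2) (by positivity)
  refine ⟨g1, hg1, κ, c, max C 0, hκ, hc, le_max_right _ _, ?_⟩
  intro N y s h l w a b ha hb hab n i e K T he hK0 hKT hKe Y hY hin hL hDm
  have h6N : (0 : ℝ) < (6 : ℝ) ^ N := by positivity
  rw [← div_le_iff₀ h6N]
  obtain ⟨L, hLd⟩ : ∃ L : ℕ, L = 2 * (D * T) + l + h + 1 := ⟨_, rfl⟩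
  have hD0 : (0 : ℝ) ≤ D := Nat.cast_nonneg D
  obtain ⟨B, hB⟩ : ∃ B : Set Conf, B = {x | 2 * (g1 * e) * Y * (1 + √(T * frqR w)) <
    |(cntR w n i a b T x : ℝ) - T * frqR w|} := ⟨_, rfl⟩
  obtain ⟨n1, hn1⟩ : ∃ n1 : Fin 1 → ℕ, n1 = fun _ => n := ⟨_, rfl⟩
  obtain ⟨i1, hi1⟩ : ∃ i1 : Fin 1 → ℤ, i1 = fun _ => i - D * T := ⟨_, rfl⟩
  obtain ⟨S, hS⟩ : ∃ S : Set (Fin 1 → Fin L → Fin L → Fin 6),
    S = {cc | ∃ x, boxes L n1 i1 x = cc ∧ x ∈ B} := ⟨_, rfl⟩
  have hdet : ∀ x x' : Conf, boxes L n1 i1 x = boxes L n1 i1 x' → (x ∈ B → x' ∈ B) := by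
    intro x x' hx
    have h1 : cntR w n i a b T x = cntR w n i a b T x' := by
      unfold cntR
      congr 1
      refine filter_congr fun t ht => ?_
      have htG : t < T := mem_range.1 ht
      unfold OccR
      refine forall_congr' fun a' => forall_congr' fun b' => ?_
      have ha' := a'.2
      have hb' := b'.2
      have e1 : t * a ≤ T * D := Nat.mul_le_mul htG.le ha
      obtain ⟨h3, h4⟩ := abs_le.1 hb
      have hDz : (0 : ℤ) ≤ D := by omega
      have htz : (t : ℤ) ≤ T := by exact_mod_cast htG.le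
      have ht0 : (0 : ℤ) ≤ t := by omega
      have e2 : -((D : ℤ) * T) ≤ t * b := by
        have : (t : ℤ) * (-b) ≤ T * D := by
          calc (t : ℤ) * (-b) ≤ t * D := mul_le_mul_of_nonneg_left (by linarith) ht0
            _ ≤ T * D := mul_le_mul_of_nonneg_right htz hDz
        linarith
      have e3 : (t : ℤ) * b ≤ D * T := by
        calc (t : ℤ) * b ≤ t * D := mul_le_mul_of_nonneg_left h4 ht0
          _ ≤ T * D := mul_le_mul_of_nonneg_right htz hDz
          _ = D * T := by ring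
      have e4 : t * a + a' < L := by
        rw [hLd]
        have : T * D = D * T := by ring
        omega
      have ha'' : ((a' : ℕ) : ℤ) < h := by exact_mod_cast ha'
      have hb'' : ((b' : ℕ) : ℤ) < l := by exact_mod_cast hb'
      have hb0 : (0 : ℤ) ≤ ((b' : ℕ) : ℤ) := by omega
      have hG0 : (0 : ℤ) ≤ T := by omega
      have hLi : (L : ℤ) = 2 * (D * T) + l + h + 1 := by rw [hLd]; push_cast; ring
      have hh0 : (0 : ℤ) ≤ h := by omega
      have e5 : 0 ≤ t * b + b' + D * T := by linarith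
      have e6 : t * b + b' + D * T < L := by rw [hLi]; linarith
      obtain ⟨r, hr⟩ := Int.eq_ofNat_of_zero_le e5
      have e7 : r < L := by
        rw [hr] at e6
        exact_mod_cast e6
      have h5 := congrFun (congrFun (congrFun hx 0) ⟨t * a + a', e4⟩) ⟨r, e7⟩
      unfold boxes at h5
      rw [hn1, hi1] at h5
      simp only at h5
      have e8 : i - D * T + (r : ℤ) = i + t * b + b' := by linarith
      rw [e8, ← add_assoc] at h5
      rw [h5]
    rw [hB]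
    simp only [Set.mem_ofPred_eq]
    rw [h1]
    exact fun h => h
  have hiff : ∀ x, boxes L n1 i1 x ∈ S ↔ x ∈ B := by
    intro x
    rw [hS]
    constructor
    · rintro ⟨x', h1, h2⟩
      exact hdet x' x h1 h2
    · intro h
      exact ⟨x, rfl, h⟩
  have h1 := hbox N y s L n1 i1 (by
      rw [hLd]
      push_cast
      exact hL) (fun j => by
      rw [hn1, hi1]
      simp only
      obtain ⟨h1, h2, h3⟩ := hin
      have h5 : (0 : ℝ) ≤ (D : ℝ) * T := by positivity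
      have h6 : (0 : ℝ) ≤ δ / 2 * N := by positivity
      refine ⟨h1, ?_, ?_⟩
      · push_cast
        linarith
      · push_cast
        linarith) S
  have h2 : (Finset.univ : Finset (Fin N → Fin 6)).filter (fun v => boxes L n1 i1 (put y s v) ∈ S) =
      (Finset.univ : Finset (Fin N → Fin 6)).filter (fun v =>
        2 * (g1 * e) * Y * (1 + √(T * frqR w)) <
          |(cntR w n i a b T (put y s v) : ℝ) - T * frqR w|) := by
    refine filter_congr fun v _ => ?_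
    rw [hiff, hB]
    rfl
  have h3 : {x | boxes L n1 i1 x ∈ S} = B := by
    ext x
    exact hiff x
  rw [h2, h3] at h1
  have h4 := hld w a b ha hb hab n i e K T he hK0 hKT hKe Y hY
  have h5 : bern.real B ≤ g1 * e * (2 * exp (2 - Y / 4)) := by rw [hB]; exact h4
  have h6 := (abs_le.1 h1).2
  have h7 : C * exp (-(c * N)) ≤ max C 0 * exp (-(c * N)) := by
    gcongr
    exact le_max_left _ _
  linarith

/-- the length of a line in the cone -/
lemma line_len {A N : ℕ} {δ : ℝ} (hδ : 0 < δ) {s : ℤ} {a : ℕ} {b : ℤ} (hab : a ≠ 0 ∨ b ≠ 0) {n : ℕ}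
    {i : ℤ} {T : ℕ} (hN : 1 ≤ N) (hc : ∀ t < T, InC A N δ s (n + t * a) (i + t * b)) :
    T ≤ (2 * A + 2) * N := by
  rcases Nat.eq_zero_or_pos T with h0 | h0
  · omega
  obtain ⟨p1, p2, p3⟩ := hc 0 h0
  obtain ⟨q1, q2, q3⟩ := hc (T - 1) (by omega)
  have hT : ((T - 1 : ℕ) : ℝ) = T - 1 := by rw [Nat.cast_sub h0]; simp
  have hN0 : (1 : ℝ) ≤ N := by exact_mod_cast hN
  by_cases ha : a = 0
  · have hb : b ≠ 0 := by tauto
    subst ha
    simp only [mul_zero, add_zero, zero_mul, Nat.cast_zero] at p1 p2 p3 q1 q2 q3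
    push_cast at p2 p3 q2 q3
    rw [hT] at q2 q3
    have hnR : (n : ℝ) ≤ A * N := by exact_mod_cast q1
    have hn0 : (0 : ℝ) ≤ n := Nat.cast_nonneg n
    have hk1 : (n : ℝ) * kap ≤ n := by
      have := mul_le_mul_of_nonneg_left kap_le_one hn0
      linarith
    have hδN : 0 < δ * N := by positivity
    have hb1 : 1 ≤ |(b : ℝ)| := by
      have : 1 ≤ |b| := Int.one_le_abs hb
      exact_mod_cast this
    have hT1 : (0 : ℝ) ≤ T - 1 := by
      have : (1 : ℝ) ≤ T := by exact_mod_cast h0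
      linarith
    have h1 : (T - 1 : ℝ) * |(b : ℝ)| ≤ (2 * A + 1) * N := by
      rw [← abs_of_nonneg hT1, ← abs_mul, abs_le]
      constructor <;> nlinarith
    have h2 : (T - 1 : ℝ) ≤ (2 * A + 1) * N := by
      calc (T - 1 : ℝ) = (T - 1) * 1 := by ring
        _ ≤ (T - 1 : ℝ) * |(b : ℝ)| := by gcongr
        _ ≤ _ := h1
    have h3 : (T : ℝ) ≤ (2 * A + 2) * N := by nlinarith
    exact_mod_cast h3
  · have h1 : (T - 1) * 1 ≤ (T - 1) * a := Nat.mul_le_mul_left _ (by omega)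
    have h2 : T - 1 ≤ A * N := by omega
    have h3 : (2 * A + 2) * N = A * N + A * N + 2 * N := by ring
    omega

end Pool.Agent.N639.FJ
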